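import Pool.Agent.R955.FD.Defs

/-!
Project FD, piece POI: periodization does not increase the norm of `L^1`.
-/

set_option autoImplicit false

namespace Pool.Agent.R999.FD

open MeasureTheory Set Filter Topology Asymptotics TopologicalSpace
open scoped ENNReal FourierTransform
open Pool.Agent.R955.FD

universe u

lemma ch_fourier (n : ℤ) (t : ℝ) : fourier n (t : UnitAddCircle) = ch (n : ℝ) t := by
  rw [fourier_coe_apply]
  unfold ch
  congr 1
  push_cast
  ring

lemma notmem (R : ℝ) (N : ℕ) (hN : 1 ≤ N) (n : ℤ)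
    (h : n ∉ Finset.Icc (-⌈R * N⌉) ⌈R * N⌉) : R ≤ |(n : ℝ) / N| := by
  have hN0 : (0 : ℝ) < N := by exact_mod_cast hN
  rw [abs_div, abs_of_pos hN0, le_div_iff₀ hN0]
  rw [Finset.mem_Icc, not_and_or, not_le, not_le] at h
  have h1 := Int.le_ceil (R * (N : ℝ))
  rcases h with h | h
  · have h2 : (n : ℝ) < -((⌈R * (N : ℝ)⌉ : ℤ) : ℝ) := by exact_mod_cast h
    linarith [neg_abs_le (n : ℝ)]
  · have h2 : ((⌈R * (N : ℝ)⌉ : ℤ) : ℝ) < n := by exact_mod_cast h
    linarith [le_abs_self (n : ℝ)]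

lemma fourier_scale (φ : ℝ → ℂ) (N : ℕ) (hN : 1 ≤ N) (ξ : ℝ) :
    𝓕 (fun t : ℝ => φ (N * t)) ξ = (1 / (N : ℂ)) * 𝓕 φ (ξ / N) := by
  have hN0 : (0 : ℝ) < N := by exact_mod_cast hN
  rw [Real.fourier_real_eq_integral_exp_smul, Real.fourier_real_eq_integral_exp_smul]
  have h := Measure.integral_comp_mul_left
    (fun y : ℝ => Complex.exp (((-2 * Real.pi * y * (ξ / N) : ℝ) : ℂ) * Complex.I) • φ y) (N : ℝ)
  have e : (fun v : ℝ => Complex.exp (((-2 * Real.pi * v * ξ : ℝ) : ℂ) * Complex.I) • φ (N * v)) =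
      fun x : ℝ => (fun y : ℝ => Complex.exp (((-2 * Real.pi * y * (ξ / N) : ℝ) : ℂ) * Complex.I) • φ y) (N * x) := by
    funext v
    simp only
    congr 4
    field_simp
  rw [e, h, abs_of_pos (inv_pos.2 hN0), Complex.real_smul]
  congr 1
  push_cast
  rw [one_div]

/-- Poisson summation for one Schwartz function with compactly supported Fourier transform. -/
lemma poisson (φ : SchwartzMap ℝ ℂ) (hφ : HasCompactSupport (𝓕 (fun t => φ t))) (N : ℕ) (hN : 1 ≤ N)
    (t : ℝ) : ∃ S : ℂ, HasSum (fun k : ℤ => φ (N * (t + k))) S ∧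
      HasSum (fun n : ℤ => (1 / (N : ℂ)) * (ch (n : ℝ) t * 𝓕 (fun t => φ t) ((n : ℝ) / N))) S := by
  have hN0 : (0 : ℝ) < N := by exact_mod_cast hN
  have hc : Continuous (fun t : ℝ => φ (N * t)) := φ.continuous.comp (continuous_const.mul continuous_id)
  have hO : (fun t : ℝ => φ (N * t)) =O[cocompact ℝ] fun x : ℝ => |x| ^ (-2 : ℝ) := by
    have h1 := φ.isBigO_cocompact_rpow (-2)
    have h2 : Tendsto (fun x : ℝ => (N : ℝ) * x) (cocompact ℝ) (cocompact ℝ) :=
      (Homeomorph.mulLeft₀ (N : ℝ) hN0.ne').isClosedEmbedding.tendsto_cocompact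
    have h3 := h1.comp_tendsto h2
    refine h3.trans ?_
    refine IsBigO.of_bound ((N : ℝ) ^ (-2 : ℝ)) (Eventually.of_forall fun x => ?_)
    have e : ‖(N : ℝ) * x‖ ^ (-2 : ℝ) = (N : ℝ) ^ (-2 : ℝ) * |x| ^ (-2 : ℝ) := by
      rw [norm_mul, Real.norm_eq_abs, Real.norm_eq_abs, abs_of_pos hN0,
        Real.mul_rpow hN0.le (abs_nonneg x)]
    simp only [Function.comp_apply]
    rw [e, norm_mul, Real.norm_of_nonneg (Real.rpow_nonneg hN0.le _)]
  have hK : ∀ K : Compacts ℝ, Summable fun n : ℤ =>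
      ‖((⟨_, hc⟩ : C(ℝ, ℂ)).comp (ContinuousMap.addRight (n : ℝ))).restrict K‖ := fun K =>
    summable_of_isBigO (Real.summable_abs_int_rpow (one_lt_two))
      ((isBigO_norm_restrict_cocompact ⟨_, hc⟩ two_pos hO K).comp_tendsto
      Int.tendsto_coe_cofinite)
  have hFs : Summable fun n : ℤ => 𝓕 (fun t : ℝ => φ (N * t)) (n : ℝ) := by
    obtain ⟨R, hR⟩ := hφ.isCompact.isBounded.subset_ball (0 : ℝ)
    apply summable_of_ne_finset_zero (s := Finset.Icc (-⌈R * N⌉) ⌈R * N⌉)
    intro n hn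
    have h1 := notmem R N hN n hn
    rw [fourier_scale (fun t => φ t) N hN]
    have h2 : 𝓕 (fun t => φ t) ((n : ℝ) / N) = 0 := by
      by_contra hne
      have h3 := hR (subset_tsupport _ (Function.mem_support.2 hne))
      rw [mem_ball_zero_iff, Real.norm_eq_abs] at h3
      linarith
    rw [h2, mul_zero]
  have hP := Real.tsum_eq_tsum_fourier hK hFs t
  have hS1 : Summable fun k : ℤ => φ (N * (t + k)) := by
    refine Summable.of_norm_bounded (hK ⟨{t}, isCompact_singleton⟩) fun k => ?_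
    have := ContinuousMap.norm_coe_le_norm (((⟨_, hc⟩ : C(ℝ, ℂ)).comp
      (ContinuousMap.addRight (k : ℝ))).restrict ({t} : Set ℝ)) ⟨t, mem_singleton t⟩
    exact this
  have hS2 : Summable fun n : ℤ => 𝓕 (fun t : ℝ => φ (N * t)) (n : ℝ) * fourier n (t : UnitAddCircle) := by
    refine Summable.of_norm_bounded hFs.norm fun n => ?_
    rw [norm_mul]
    have : ‖fourier n (t : UnitAddCircle)‖ = 1 := by
      rw [fourier_apply]; exact Circle.norm_coe _
    rw [this, mul_one]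
  refine ⟨∑' k : ℤ, φ (N * (t + k)), hS1.hasSum, ?_⟩
  have e : ∑' k : ℤ, φ (N * (t + k)) =
      ∑' n : ℤ, 𝓕 (fun t : ℝ => φ (N * t)) (n : ℝ) * fourier n (t : UnitAddCircle) := hP
  rw [e]
  refine hS2.hasSum.congr_fun fun n => ?_
  rw [fourier_scale (fun t => φ t) N hN, ch_fourier]
  ring

theorem t_POI : S_POI.{u} := by
  intro X _ _ _ f A L hf hg N hN
  have hN0 : (0 : ℝ) < N := by exact_mod_cast hN
  obtain ⟨m, φ, x, hφ, rfl⟩ := hf
  set f : ℝ → X := fun t => ∑ j, φ j t • x j with hfdef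
  have hF : ∀ ξ, 𝓕 f ξ = ∑ j, 𝓕 (fun t => φ j t) ξ • x j := by
    intro ξ
    rw [Real.fourier_real_eq_integral_exp_smul]
    simp only [Real.fourier_real_eq_integral_exp_smul, hfdef, Finset.smul_sum]
    rw [integral_finsetSum]
    · refine Finset.sum_congr rfl fun j _ => ?_
      rw [← integral_smul_const]
      refine integral_congr_ae (Eventually.of_forall fun v => ?_)
      simp only [smul_assoc]
    · intro j _
      have h1 : Integrable (fun v : ℝ => φ j v • x j) := (φ j).integrable.smul_const _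
      refine h1.norm.mono' ?_ (Eventually.of_forall fun v => ?_)
      · refine Continuous.aestronglyMeasurable ?_
        refine Continuous.smul ?_ ((φ j).continuous.smul continuous_const)
        fun_prop
      · rw [norm_smul, Complex.norm_exp_ofReal_mul_I, one_mul]
  have hTN : ∀ t, TN (𝓕 f) A N univ t = ∑' k : ℤ, f (N * (t + k)) := by
    intro t
    choose S hS1 hS2 using fun j => poisson (φ j) (hφ j) N hN t
    have h1 : HasSum (fun k : ℤ => f (N * (t + k))) (∑ j, S j • x j) :=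
      hasSum_sum fun j _ => (hS1 j).smul_const (x j)
    have h2 : HasSum (fun n : ℤ => (1 / (N : ℂ)) • (ch (n : ℝ) t • 𝓕 f ((n : ℝ) / N))) (∑ j, S j • x j) := by
      have h3 : HasSum (fun n : ℤ => ∑ j, ((1 / (N : ℂ)) * (ch (n : ℝ) t * 𝓕 (fun t => φ j t) ((n : ℝ) / N))) • x j)
          (∑ j, S j • x j) := hasSum_sum fun j _ => (hS2 j).smul_const (x j)
      refine h3.congr_fun fun n => ?_
      rw [hF, Finset.smul_sum, Finset.smul_sum]
      refine Finset.sum_congr rfl fun j _ => ?_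
      rw [smul_smul, smul_smul, mul_assoc]
    have h4 : HasSum (fun n : ℤ => (1 / (N : ℂ)) • (ch (n : ℝ) t • 𝓕 f ((n : ℝ) / N))) (TN (𝓕 f) A N univ t) := by
      unfold TN
      simp only [mem_univ, if_true]
      apply hasSum_sum_of_ne_finset_zero
      intro n hn
      rw [hg.2.2.2.2 _ (notmem A N hN n hn), smul_zero, smul_zero]
    rw [h1.tsum_eq]
    exact h4.unique h2
  have hfm : Continuous f := by
    simp only [hfdef]
    exact continuous_finsetSum _ fun j _ => (φ j).continuous.smul continuous_const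
  unfold nT nR
  rw [eLpNorm_one_eq_lintegral_enorm, eLpNorm_one_eq_lintegral_enorm]
  have hsc : ∫⁻ s, ‖f s‖ₑ = ENNReal.ofReal N * ∫⁻ s : ℝ, ‖f (N * s)‖ₑ := by
    have h1 := Real.map_volume_mul_left (a := (N : ℝ)) hN0.ne'
    have h2 : ∫⁻ s : ℝ, ‖f (N * s)‖ₑ = ∫⁻ s, ‖f s‖ₑ ∂(Measure.map ((N : ℝ) * ·) volume) :=
      (lintegral_map hfm.enorm.measurable (by fun_prop)).symm
    rw [h2, h1, lintegral_smul_measure, smul_eq_mul, ← mul_assoc, ← ENNReal.ofReal_mul hN0.le,
      abs_of_pos (inv_pos.2 hN0), mul_inv_cancel₀ hN0.ne', ENNReal.ofReal_one, one_mul]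
  rw [hsc]
  apply mul_le_mul' le_rfl
  have hdec : ∫⁻ s : ℝ, ‖f (N * s)‖ₑ = ∑' k : ℤ, ∫⁻ t in Ioc (0 : ℝ) 1, ‖f (N * (t + k))‖ₑ := by
    rw [← setLIntegral_univ, ← iUnion_Ioc_intCast ℝ,
      lintegral_iUnion (fun n => measurableSet_Ioc) (pairwise_disjoint_Ioc_intCast ℝ)]
    refine tsum_congr fun k => ?_
    have h1 := (measurePreserving_add_right volume (k : ℝ)).setLIntegral_comp_preimage_emb
      (measurableEmbedding_addRight (k : ℝ)) (fun s => ‖f (N * s)‖ₑ) (Ioc (k : ℝ) (k + 1))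
    rw [← h1]
    have h2 : (fun x : ℝ => x + (k : ℝ)) ⁻¹' (Ioc (k : ℝ) (k + 1)) = Ioc 0 1 := by
      ext y
      simp only [mem_preimage, mem_Ioc]
      constructor
      · rintro ⟨h1, h2⟩; constructor <;> linarith
      · rintro ⟨h1, h2⟩; constructor <;> linarith
    rw [h2]
  rw [hdec, ← lintegral_tsum]
  · apply lintegral_mono
    intro t
    simp only [hTN]
    exact enorm_tsum_le_tsum_enorm
  · intro k
    exact (hfm.comp (by fun_prop : Continuous fun t : ℝ => (N : ℝ) * (t + k))).enorm.measurable.aemeasurable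

end Pool.Agent.R999.FD
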